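import Pool.Agent.Helper17_AFL.Prb

/-!
# AND2B, block lemma FLO: all numeric conditions and the bound of the probability
-/

set_option autoImplicit false

open scoped BigOperators
open Filter Topology

noncomputable section

namespace Pool.Agent.AFL.H17

open Pool.Agent.AFL Pool.Agent.AND.Num

/-- the constants -/
structure Cs (c₀ C₀ C κ₀ t₁ cL CL ω₀ r₀ N₀ e c₆ Kc γ : ℝ) : Prop where
  c0 : 0 < c₀
  C0 : 0 ≤ C₀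
  C : 0 ≤ C
  k : 0 < κ₀
  t : 0 ≤ t₁
  cL : 0 < cL
  CL : 0 ≤ CL
  om : 0 < ω₀
  r : 0 ≤ r₀
  N : 0 ≤ N₀
  tC : t₁ * C₀ ≤ 1
  tr : 2 * r₀ * t₁ ≤ 1
  ex : Real.exp (3 * a0 t₁ r₀ N₀) ≤ 2
  e0 : 0 < e
  e1 : e ≤ 1 / 64
  c6 : 0 < c₆
  c61 : c₆ ≤ 1 / 64
  Kc : 0 ≤ Kc
  g : 0 < γ
  ge : 16 * γ ≤ e
  gc : 16 * γ ≤ c₆

variable {c₀ C₀ C κ₀ t₁ cL CL ω₀ r₀ N₀ e c₆ Kc γ : ℝ}

/-- the constant of `T nu` -/
def D7 (c₀ κ₀ t₁ CL r₀ : ℝ) : ℝ :=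
  32 / c₀ * (Real.sqrt r₀ * (t₁ * Real.sqrt (CL / κ₀))) + 16 * r₀ * t₁ + 16 * t₁

/-- the smallness conditions on `s` -/
structure Sm (c₀ C κ₀ t₁ CL r₀ N₀ e c₆ γ : ℝ) (s : ℝ) : Prop where
  one : s ≤ 1
  n : s ^ γ ≤ 1 / 2
  q1 : t₁ * CL * s ^ (1 / 4 : ℝ) ≤ s ^ (4 * γ + (1 / 4 - 2 * e))
  q4a : C * (t₁ * (N₀ + 1)) * s ^ (1 / 8 - e) ≤ 1 / 2 * s ^ (2 * γ + (1 / 16 - e))
  q4b : C * (t₁ * Real.sqrt (Real.sqrt (CL / κ₀)) / Real.sqrt κ₀) * s ^ (1 / 16 : ℝ) ≤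
    1 / 2 * s ^ (2 * γ + (1 / 16 - e))
  q5 : C * (t₁ * Real.sqrt (CL / κ₀)) * s ^ (1 / 8 : ℝ) ≤ s ^ (4 * γ + (1 / 8 - 2 * e))
  q6 : t₁ * s ^ (1 / 8 - e) ≤ s ^ (2 * γ + 1 / 16)
  q7 : D7 c₀ κ₀ t₁ CL r₀ * s ^ c₆ ≤ s ^ (4 * γ)

theorem sm (h : Cs c₀ C₀ C κ₀ t₁ cL CL ω₀ r₀ N₀ e c₆ Kc γ) :
    Small fun s => Sm c₀ C κ₀ t₁ CL r₀ N₀ e c₆ γ s := by
  have he := h.e0; have he1 := h.e1; have hg := h.g; have hge := h.ge; have hgc := h.gc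
  have h1 := small_le 1 one_pos
  have h2 := small_rpow_le (1 / 2) γ (by norm_num) hg
  have h3 := small_pow (t₁ * CL) (1 / 4) (4 * γ + (1 / 4 - 2 * e)) (by linarith)
  have h4 := small_pow' (C * (t₁ * (N₀ + 1))) (1 / 2) (1 / 8 - e) (2 * γ + (1 / 16 - e))
    (by norm_num) (by linarith)
  have h5 := small_pow' (C * (t₁ * Real.sqrt (Real.sqrt (CL / κ₀)) / Real.sqrt κ₀)) (1 / 2)
    (1 / 16) (2 * γ + (1 / 16 - e)) (by norm_num) (by linarith)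
  have h6 := small_pow (C * (t₁ * Real.sqrt (CL / κ₀))) (1 / 8) (4 * γ + (1 / 8 - 2 * e))
    (by linarith)
  have h7 := small_pow t₁ (1 / 8 - e) (2 * γ + 1 / 16) (by linarith)
  have h8 := small_pow (D7 c₀ κ₀ t₁ CL r₀) c₆ (4 * γ) (by linarith)
  refine ((((((((h1.and h2).and h3).and h4).and h5).and h6).and h7).and h8)).mono ?_
  rintro s - ⟨⟨⟨⟨⟨⟨⟨a1, a2⟩, a3⟩, a4⟩, a5⟩, a6⟩, a7⟩, a8⟩
  exact ⟨a1, a2, a3, a4, a5, a6, a7, a8⟩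

section

variable {X : Type} [Fintype X] [DecidableEq X] {F : Fl X} {KL : ℕ} {s : ℝ}

theorem n_le (h : Cs c₀ C₀ C κ₀ t₁ cL CL ω₀ r₀ N₀ e c₆ Kc γ)
    (hF : Pq F κ₀ t₁ cL CL ω₀ r₀ N₀ e c₆ Kc γ KL s) (hs : 0 < s) (hs1 : s ≤ 1) :
    s ^ (-γ) ≤ F.n ∧ (F.n : ℝ) ≤ 2 * s ^ (-γ) := by
  rw [hF.n]
  have h1 : 1 ≤ s ^ (-γ) := Real.one_le_rpow_of_pos_of_le_one_of_nonpos hs hs1 (by
    have := h.g; linarith)
  refine ⟨Nat.le_ceil _, ?_⟩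
  have h2 := Nat.ceil_lt_add_one (show 0 ≤ s ^ (-γ) by linarith)
  linarith

/-- the dimensionless conditions hold with `u = s ^ (2 γ)` -/
theorem dim (h : Cs c₀ C₀ C κ₀ t₁ cL CL ω₀ r₀ N₀ e c₆ Kc γ)
    (hF : Pq F κ₀ t₁ cL CL ω₀ r₀ N₀ e c₆ Kc γ KL s) (hs : 0 < s)
    (hS : Sm c₀ C κ₀ t₁ CL r₀ N₀ e c₆ γ s) : Dim F c₀ C (s ^ (2 * γ)) t₁ r₀ N₀ KL := by
  have he := h.e0; have he1 := h.e1; have hg := h.g; have hge := h.ge; have hgc := h.gc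
  have hs1 := hS.one
  have hk : 0 < F.κv := lt_of_lt_of_le (mul_pos h.k hs) hF.k0
  have hu2 : (s ^ (2 * γ)) ^ 2 = s ^ (4 * γ) := rp_sq hs _ _ (by ring)
  have hT : F.T ≤ t₁ * s := hF.Tk.trans (mul_le_mul_of_nonneg_left hF.k1 h.t)
  have hTk : F.T / F.κv ≤ t₁ := (div_le_iff₀ hk).2 hF.Tk
  have hTk0 : 0 ≤ F.T / F.κv := div_nonneg hF.T0.le hk.le
  have hdl : 0 < F.δ := by rw [hF.dl]; positivity
  have hdy : 0 < F.δY := by rw [hF.dy]; positivity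
  refine ⟨by positivity, hF.T0, hk, hF.Tk, hF.r0, hF.r1, hF.N0, hF.N1, hdl, ?_, hF.ep, ?_,
    hF.e1, ?_, hdy, ?_, ?_, ?_, ?_, ?_, ?_, ?_, ?_, hF.nL⟩
  · -- dl1
    rw [hu2, hF.dl]
    exact rpow_anti hs hs1 (by linarith)
  · rw [hu2]
    exact hF.ep1.trans (rpow_anti hs hs1 (by linarith))
  · rw [hu2]
    exact hF.e11.trans (rpow_anti hs hs1 (by linarith))
  · -- q1
    rw [hu2, hF.dl, rp_sq hs _ (1 / 4 - 2 * e) (by ring),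
      rp_mul hs _ _ (4 * γ + (1 / 4 - 2 * e)) rfl]
    refine le_trans ?_ hS.q1
    by_cases hL : 0 ≤ F.L
    · calc F.T * F.L ≤ t₁ * s * (CL * s ^ (-(3 / 4 : ℝ))) :=
            mul_le_mul hT hF.L1 hL (mul_nonneg h.t hs.le)
        _ = t₁ * CL * (s * s ^ (-(3 / 4 : ℝ))) := by ring
        _ = _ := by rw [rp_one hs _ (1 / 4) (by norm_num)]
    · push Not at hL
      have h1 := mul_neg_of_pos_of_neg hF.T0 hL
      have h2 : 0 ≤ t₁ * CL * s ^ (1 / 4 : ℝ) := by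
        have := h.t; have := h.CL; positivity
      linarith
  · -- q2
    rw [hu2, hF.l0, rp_sqrt hs _ (-(c₆ / 4)) (by ring), Real.rpow_neg hs.le, one_div, inv_inv]
    exact rpow_anti hs hs1 (by linarith)
  · -- q3
    rw [hu2, hF.z]
    calc F.κv * s ^ (-(63 / 64 : ℝ)) ≤ s * s ^ (-(63 / 64 : ℝ)) :=
          mul_le_mul_of_nonneg_right hF.k1 (by positivity)
      _ = s ^ (1 / 64 : ℝ) := rp_one hs _ _ (by norm_num)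
      _ ≤ s ^ (4 * γ) := rpow_anti hs hs1 (by linarith)
  · -- q4
    rw [hF.dy, rp_mul hs _ _ (2 * γ + (1 / 16 - e)) rfl]
    have h1 := Tqq_le hF hs h.k h.CL h.t
    have h2 : F.T * (F.μs / F.κv) ≤ t₁ * (N₀ + 1) * s ^ (1 / 8 - e) := by
      have h21 : F.T * (F.μs / F.κv) = (F.T / F.κv) * ((F.N + 1) * F.δ) := by
        unfold Fl.μs; ring
      rw [h21, hF.dl]
      calc (F.T / F.κv) * ((F.N + 1) * s ^ (1 / 8 - e)) ≤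
          t₁ * ((N₀ + 1) * s ^ (1 / 8 - e)) := by
            refine mul_le_mul hTk ?_ ?_ h.t
            · exact mul_le_mul_of_nonneg_right (by have := hF.N1; linarith) (by positivity)
            · exact mul_nonneg (by have := hF.N0; linarith) (by positivity)
        _ = _ := by ring
    have h3 : F.T * F.yd C = C * (F.T * (F.μs / F.κv)) +
        C * (F.T * (Real.sqrt (Real.sqrt (F.L / F.κv)) / Real.sqrt F.κv)) := by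
      unfold Fl.yd; ring
    rw [h3]
    have h4 := mul_le_mul_of_nonneg_left h2 h.C
    have h5 := mul_le_mul_of_nonneg_left h1 h.C
    have h6 := hS.q4a
    have h7 := hS.q4b
    have e1 : C * (t₁ * (N₀ + 1) * s ^ (1 / 8 - e)) = C * (t₁ * (N₀ + 1)) * s ^ (1 / 8 - e) := by
      ring
    have e2 : C * (t₁ * Real.sqrt (Real.sqrt (CL / κ₀)) / Real.sqrt κ₀ * s ^ (1 / 16 : ℝ)) =
      C * (t₁ * Real.sqrt (Real.sqrt (CL / κ₀)) / Real.sqrt κ₀) * s ^ (1 / 16 : ℝ) := by ring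
    rw [e1] at h4
    rw [e2] at h5
    linarith
  · -- q5
    rw [hu2, hF.dy, rp_sq hs _ (1 / 8 - 2 * e) (by ring),
      rp_mul hs _ _ (4 * γ + (1 / 8 - 2 * e)) rfl]
    refine le_trans ?_ hS.q5
    have h1 := mul_le_mul_of_nonneg_left (Tsq_le hF hs h.k h.CL h.t) h.C
    have h2 : F.T * F.yn C = C * (F.T * Real.sqrt (F.L / F.κv)) := by unfold Fl.yn; ring
    rw [h2]
    refine h1.trans (le_of_eq ?_)
    ring
  · -- q6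
    have h1 := e1_low hF hs hs1 h.c6.le
    have h2 : t₁ * F.δ ≤ s ^ (2 * γ) * F.ε₁ := by
      rw [hF.dl]
      refine hS.q6.trans ?_
      rw [← rp_mul hs (2 * γ) (1 / 16) _ rfl]
      exact mul_le_mul_of_nonneg_left h1 (by positivity)
    calc F.T * F.δ ≤ t₁ * F.κv * F.δ := mul_le_mul_of_nonneg_right hF.Tk hdl.le
      _ = F.κv * (t₁ * F.δ) := by ring
      _ ≤ F.κv * (s ^ (2 * γ) * F.ε₁) := mul_le_mul_of_nonneg_left h2 hk.le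
      _ = _ := by ring
  · -- q7
    rw [hu2]
    have h1 := nu_le (c₀ := c₀) hF hs h.k h.CL h.t h.c0
    refine h1.trans (mul_le_mul_of_nonneg_right hS.q7 (by positivity))
  · -- nn
    have h1 := (n_le h hF hs hs1).2
    calc (F.n : ℝ) * s ^ (2 * γ) ≤ 2 * s ^ (-γ) * s ^ (2 * γ) :=
          mul_le_mul_of_nonneg_right h1 (by positivity)
      _ = 2 * (s ^ (-γ) * s ^ (2 * γ)) := by ring
      _ = 2 * s ^ γ := by rw [rp_mul hs _ _ γ (by ring)]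
      _ ≤ 1 := by have := hS.n; linarith

end

/-- the numeric fields of `Fl.Ok` and the probability -/
structure Out {X : Type} [Fintype X] [DecidableEq X] (F : Fl X) (c₀ C₀ C γ s : ℝ) : Prop where
  hTv : F.T * C₀ ≤ F.κv ∧ 2 * F.r * F.T ≤ F.κv
  hδ : (F.N + 2) * F.δ ≤ c₀ / 2
  hz : 0 ≤ F.z ∧ 16 * F.μs ^ 4 * F.r ^ 3 ≤ F.z ^ 4 * (F.ω * F.L) * F.κv ^ 5
  hL0 : 1 ≤ F.L0 ∧ F.κv * (16 * F.sg C₀ + 2 * F.z) * F.L0 ≤ 1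
  hn : 1 ≤ F.n ∧ F.n ≤ F.nL
  pr : F.pr c₀ C₀ C ≤ Real.exp (-(s ^ (-(γ / 2))))

/-- the remaining smallness conditions -/
structure Sm2 (c₀ C₀ κ₀ t₁ cL ω₀ r₀ N₀ e c₆ Kc γ : ℝ) (KL : ℕ) (s : ℝ) : Prop where
  d : (N₀ + 2) * s ^ (1 / 8 - e) ≤ c₀ / 2
  z : 16 * (N₀ + 1) ^ 4 * r₀ ^ 3 * s ^ (1 / 2 - 4 * e) ≤ ω₀ * cL * κ₀ ^ 5 * s ^ (5 / 16 : ℝ)
  l1 : 16 * (C₀ ^ 2 * r₀ ^ 2 / (κ₀ * (ω₀ * cL))) * s ^ (c₆ / 2) ≤ 1 / 2
  l2 : 2 * s ^ (1 / 64 - c₆ / 2) ≤ 1 / 2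
  p : 3 * Real.exp (3 * Bc C₀ t₁ r₀ N₀ KL) *
    (1 + 10 * a0 t₁ r₀ N₀ + 5 * Bc C₀ t₁ r₀ N₀ KL) * s ^ (-(γ + 2 * Kc)) *
      Real.exp (-(Real.log 2 * s ^ (-γ))) ≤ Real.exp (-(s ^ (-(γ / 2))))

theorem sm2 (h : Cs c₀ C₀ C κ₀ t₁ cL CL ω₀ r₀ N₀ e c₆ Kc γ) (KL : ℕ) :
    Small fun s => Sm2 c₀ C₀ κ₀ t₁ cL ω₀ r₀ N₀ e c₆ Kc γ KL s := by
  have he := h.e0; have he1 := h.e1; have hg := h.g; have hge := h.ge; have hgc := h.gc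
  have h0 := h.c0; have hk := h.k; have hcL := h.cL; have hom := h.om
  have h1 : Small fun s => (N₀ + 2) * s ^ (1 / 8 - e) ≤ c₀ / 2 := by
    refine (small_pow' (N₀ + 2) (c₀ / 2) (1 / 8 - e) 0 (by positivity) (by linarith)).mono ?_
    intro s _ hh
    simpa using hh
  have h2 := small_pow' (16 * (N₀ + 1) ^ 4 * r₀ ^ 3) (ω₀ * cL * κ₀ ^ 5) (1 / 2 - 4 * e) (5 / 16)
    (by positivity) (by linarith)
  have h3 : Small fun s => 16 * (C₀ ^ 2 * r₀ ^ 2 / (κ₀ * (ω₀ * cL))) * s ^ (c₆ / 2) ≤ 1 / 2 := by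
    refine (small_pow' (16 * (C₀ ^ 2 * r₀ ^ 2 / (κ₀ * (ω₀ * cL)))) (1 / 2) (c₆ / 2) 0
      (by norm_num) (by have := h.c6; linarith)).mono ?_
    intro s _ hh
    simpa using hh
  have h4 : Small fun s => 2 * s ^ (1 / 64 - c₆ / 2) ≤ 1 / 2 := by
    refine (small_pow' 2 (1 / 2) (1 / 64 - c₆ / 2) 0 (by norm_num)
      (by have := h.c61; linarith)).mono ?_
    intro s _ hh
    simpa using hh
  have h5 := small_exp (3 * Real.exp (3 * Bc C₀ t₁ r₀ N₀ KL) *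
    (1 + 10 * a0 t₁ r₀ N₀ + 5 * Bc C₀ t₁ r₀ N₀ KL)) (Real.log 2) γ (γ + 2 * Kc) (γ / 2)
    (Real.log_pos (by norm_num)) hg (by linarith)
  refine ((((h1.and h2).and h3).and h4).and h5).mono ?_
  rintro s - ⟨⟨⟨⟨a1, a2⟩, a3⟩, a4⟩, a5⟩
  exact ⟨a1, a2, a3, a4, a5⟩

section

variable {X : Type} [Fintype X] [DecidableEq X] {F : Fl X} {KL : ℕ} {s : ℝ}

theorem hz_le (h : Cs c₀ C₀ C κ₀ t₁ cL CL ω₀ r₀ N₀ e c₆ Kc γ)
    (hF : Pq F κ₀ t₁ cL CL ω₀ r₀ N₀ e c₆ Kc γ KL s) (hs : 0 < s)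
    (hS : Sm2 c₀ C₀ κ₀ t₁ cL ω₀ r₀ N₀ e c₆ Kc γ KL s) :
    16 * F.μs ^ 4 * F.r ^ 3 ≤ F.z ^ 4 * (F.ω * F.L) * F.κv ^ 5 := by
  have hk := h.k; have hcL := h.cL; have hom := h.om; have hN := h.N; have hr := h.r
  have hN0 := hF.N0; have hN1 := hF.N1
  have h1 : F.μs ^ 4 ≤ (N₀ + 1) ^ 4 * s ^ (1 / 2 - 4 * e) := by
    unfold Fl.μs
    rw [hF.dl, mul_pow, rp_four hs _ (1 / 2 - 4 * e) (by ring)]
    refine mul_le_mul_of_nonneg_right ?_ (by positivity)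
    exact pow_le_pow_left₀ (by linarith) (by linarith) 4
  have h2 : F.r ^ 3 ≤ r₀ ^ 3 := pow_le_pow_left₀ hF.r0 hF.r1 3
  have h3 : 16 * F.μs ^ 4 * F.r ^ 3 ≤ 16 * (N₀ + 1) ^ 4 * r₀ ^ 3 * s ^ (1 / 2 - 4 * e) := by
    have h31 : F.μs ^ 4 * F.r ^ 3 ≤ (N₀ + 1) ^ 4 * s ^ (1 / 2 - 4 * e) * r₀ ^ 3 :=
      mul_le_mul h1 h2 (pow_nonneg hF.r0 3) (by positivity)
    linarith
  have h4 : ω₀ * (cL * s ^ (-(3 / 4 : ℝ))) ≤ F.ω * F.L :=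
    mul_le_mul hF.om hF.L0 (by positivity) (hom.le.trans hF.om)
  have h5 : (κ₀ * s) ^ 5 ≤ F.κv ^ 5 := pow_le_pow_left₀ (by positivity) hF.k0 5
  have h6 : s ^ (-(63 / 16 : ℝ)) * (ω₀ * (cL * s ^ (-(3 / 4 : ℝ)))) * (κ₀ * s) ^ 5 =
      ω₀ * cL * κ₀ ^ 5 * s ^ (5 / 16 : ℝ) := by
    have h61 : s ^ 5 = s ^ (5 : ℝ) := by
      rw [← Real.rpow_natCast]; norm_num
    have h62 : s ^ (-(63 / 16 : ℝ)) * s ^ (-(3 / 4 : ℝ)) * s ^ (5 : ℝ) = s ^ (5 / 16 : ℝ) := by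
      rw [rp_mul hs _ _ (-(75 / 16 : ℝ)) (by norm_num), rp_mul hs _ _ (5 / 16) (by norm_num)]
    calc _ = ω₀ * cL * κ₀ ^ 5 * (s ^ (-(63 / 16 : ℝ)) * s ^ (-(3 / 4 : ℝ)) * s ^ 5) := by ring
      _ = _ := by rw [h61, h62]
  refine (h3.trans hS.z).trans ?_
  rw [hF.z, rp_four hs _ (-(63 / 16 : ℝ)) (by norm_num), ← h6]
  have hωL : 0 ≤ F.ω * F.L := (by positivity : (0 : ℝ) ≤ ω₀ * (cL * s ^ (-(3 / 4 : ℝ)))).trans h4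
  exact mul_le_mul (mul_le_mul_of_nonneg_left h4 (by positivity)) h5 (by positivity)
    (mul_nonneg (by positivity) hωL)

theorem hL_le (h : Cs c₀ C₀ C κ₀ t₁ cL CL ω₀ r₀ N₀ e c₆ Kc γ)
    (hF : Pq F κ₀ t₁ cL CL ω₀ r₀ N₀ e c₆ Kc γ KL s) (hs : 0 < s)
    (hS : Sm2 c₀ C₀ κ₀ t₁ cL ω₀ r₀ N₀ e c₆ Kc γ KL s) :
    F.κv * (16 * F.sg C₀ + 2 * F.z) * F.L0 ≤ 1 := by
  have hk := h.k; have hcL := h.cL; have hom := h.om; have hr := h.r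
  have hκ : 0 < F.κv := lt_of_lt_of_le (mul_pos h.k hs) hF.k0
  have h4 : ω₀ * (cL * s ^ (-(3 / 4 : ℝ))) ≤ F.ω * F.L :=
    mul_le_mul hF.om hF.L0 (by positivity) (hom.le.trans hF.om)
  have h40 : 0 < ω₀ * (cL * s ^ (-(3 / 4 : ℝ))) := by positivity
  have hωL : 0 < F.ω * F.L := h40.trans_le h4
  have e1 : F.κv * F.sg C₀ = C₀ ^ 2 * (F.r ^ 2 * F.s2) / (F.κv * (F.ω * F.L)) := by
    unfold Fl.sg
    field_simp
  have h5 : κ₀ * s * (ω₀ * (cL * s ^ (-(3 / 4 : ℝ)))) ≤ F.κv * (F.ω * F.L) :=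
    mul_le_mul hF.k0 h4 h40.le hκ.le
  have h6 : F.r ^ 2 * F.s2 ≤ r₀ ^ 2 * s ^ (1 / 4 + c₆) :=
    mul_le_mul (pow_le_pow_left₀ hF.r0 hF.r1 2) hF.s2 hF.s2n (by positivity)
  have h7 : F.κv * F.sg C₀ ≤ C₀ ^ 2 * r₀ ^ 2 / (κ₀ * (ω₀ * cL)) * s ^ c₆ := by
    rw [e1]
    calc C₀ ^ 2 * (F.r ^ 2 * F.s2) / (F.κv * (F.ω * F.L)) ≤
        C₀ ^ 2 * (r₀ ^ 2 * s ^ (1 / 4 + c₆)) / (κ₀ * s * (ω₀ * (cL * s ^ (-(3 / 4 : ℝ))))) :=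
          div_le_div₀ (by positivity) (mul_le_mul_of_nonneg_left h6 (by positivity))
            (by positivity) h5
      _ = C₀ ^ 2 * r₀ ^ 2 / (κ₀ * (ω₀ * cL)) * (s ^ (1 / 4 + c₆) / (s * s ^ (-(3 / 4 : ℝ)))) := by
          field_simp
      _ = _ := by
          congr 1
          rw [rp_one hs _ (1 / 4) (by norm_num), ← Real.rpow_sub hs]
          congr 1
          ring
  have h8 : F.κv * F.z ≤ s ^ (1 / 64 : ℝ) := by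
    rw [hF.z]
    calc F.κv * s ^ (-(63 / 64 : ℝ)) ≤ s * s ^ (-(63 / 64 : ℝ)) :=
          mul_le_mul_of_nonneg_right hF.k1 (by positivity)
      _ = s ^ (1 / 64 : ℝ) := rp_one hs _ _ (by norm_num)
  have hl : 0 ≤ s ^ (-(c₆ / 2)) := by positivity
  rw [hF.l0]
  calc F.κv * (16 * F.sg C₀ + 2 * F.z) * s ^ (-(c₆ / 2))
      = (16 * (F.κv * F.sg C₀) + 2 * (F.κv * F.z)) * s ^ (-(c₆ / 2)) := by ring
    _ ≤ (16 * (C₀ ^ 2 * r₀ ^ 2 / (κ₀ * (ω₀ * cL)) * s ^ c₆) + 2 * s ^ (1 / 64 : ℝ)) *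
        s ^ (-(c₆ / 2)) := mul_le_mul_of_nonneg_right (by linarith) hl
    _ = 16 * (C₀ ^ 2 * r₀ ^ 2 / (κ₀ * (ω₀ * cL))) * (s ^ c₆ * s ^ (-(c₆ / 2))) +
        2 * (s ^ (1 / 64 : ℝ) * s ^ (-(c₆ / 2))) := by ring
    _ = 16 * (C₀ ^ 2 * r₀ ^ 2 / (κ₀ * (ω₀ * cL))) * s ^ (c₆ / 2) +
        2 * s ^ (1 / 64 - c₆ / 2) := by
        rw [rp_mul hs _ _ (c₆ / 2) (by ring), rp_mul hs _ _ (1 / 64 - c₆ / 2) (by ring)]
    _ ≤ 1 := by have := hS.l1; have := hS.l2; linarith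

theorem pr_exp (h : Cs c₀ C₀ C κ₀ t₁ cL CL ω₀ r₀ N₀ e c₆ Kc γ)
    (hF : Pq F κ₀ t₁ cL CL ω₀ r₀ N₀ e c₆ Kc γ KL s) (hs : 0 < s)
    (hK : (1 / (1 + ω₀)) ^ KL ≤ 1 / 4)
    (hS : Sm c₀ C κ₀ t₁ CL r₀ N₀ e c₆ γ s)
    (hS2 : Sm2 c₀ C₀ κ₀ t₁ cL ω₀ r₀ N₀ e c₆ Kc γ KL s) :
    F.pr c₀ C₀ C ≤ Real.exp (-(s ^ (-(γ / 2)))) := by
  have hs1 := hS.one
  have hg := h.g
  have hP : 1 ≤ s ^ (-Kc) := Real.one_le_rpow_of_pos_of_le_one_of_nonpos hs hs1 (by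
    have := h.Kc; linarith)
  have hγ : 1 ≤ s ^ (-γ) := Real.one_le_rpow_of_pos_of_le_one_of_nonpos hs hs1 (by linarith)
  have h1 := pr_le (dim h hF hs hS) h.C0 h.om hF.om hK h.ex hP hF.q1 hF.q
  have hn := n_le h hF hs hs1
  have ha : 0 ≤ a0 t₁ r₀ N₀ := by
    unfold a0; have := h.t; have := h.r; have := h.N; positivity
  have hB : 0 ≤ Bc C₀ t₁ r₀ N₀ KL := by
    unfold Bc; have := h.t; have := h.r; have := h.N; have := h.C0; positivity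
  have hp := hS2.p
  generalize a0 t₁ r₀ N₀ = a at *
  generalize Bc C₀ t₁ r₀ N₀ KL = B at *
  refine h1.trans (le_trans ?_ hp)
  have h2 : (1 / 2 : ℝ) ^ F.n ≤ Real.exp (-(Real.log 2 * s ^ (-γ))) := by
    have h21 : (1 / 2 : ℝ) ^ F.n = Real.exp (-(Real.log 2 * F.n)) := by
      rw [← Real.rpow_natCast, Real.rpow_def_of_pos (by norm_num), one_div, Real.log_inv]
      congr 1
      ring
    rw [h21, Real.exp_le_exp]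
    have := mul_le_mul_of_nonneg_left hn.1 (Real.log_nonneg (by norm_num : (1 : ℝ) ≤ 2))
    linarith
  have hPP : s ^ (-Kc) ≤ (s ^ (-Kc)) ^ 2 := by nlinarith
  have h3 : s ^ (-Kc) + (a * F.n + B) * (5 * (s ^ (-Kc)) ^ 2) ≤
      (1 + 10 * a + 5 * B) * s ^ (-(γ + 2 * Kc)) := by
    have e1 : s ^ (-(γ + 2 * Kc)) = s ^ (-γ) * (s ^ (-Kc)) ^ 2 := by
      rw [rp_sq hs (-Kc) (-(2 * Kc)) (by ring), rp_mul hs _ _ (-(γ + 2 * Kc)) (by ring)]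
    rw [e1]
    set p : ℝ := (s ^ (-Kc)) ^ 2 with hpd
    have hp0 : 0 ≤ p := by positivity
    have h31 : s ^ (-Kc) ≤ s ^ (-γ) * p := by
      calc s ^ (-Kc) ≤ 1 * p := by rw [one_mul]; exact hPP
        _ ≤ s ^ (-γ) * p := mul_le_mul_of_nonneg_right hγ hp0
    have h32 : (a * F.n + B) * (5 * p) ≤ (10 * a + 5 * B) * (s ^ (-γ) * p) := by
      have h321 : a * F.n + B ≤ (2 * a + B) * s ^ (-γ) := by
        have := mul_le_mul_of_nonneg_left hn.2 ha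
        have := mul_le_mul_of_nonneg_left hγ hB
        linarith
      calc (a * F.n + B) * (5 * p) ≤ (2 * a + B) * s ^ (-γ) * (5 * p) :=
            mul_le_mul_of_nonneg_right h321 (by positivity)
        _ = _ := by ring
    linarith
  calc 3 * Real.exp (3 * B) * (s ^ (-Kc) + (a * F.n + B) * (5 * (s ^ (-Kc)) ^ 2)) *
      (1 / 2) ^ F.n
      ≤ 3 * Real.exp (3 * B) * ((1 + 10 * a + 5 * B) * s ^ (-(γ + 2 * Kc))) *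
        Real.exp (-(Real.log 2 * s ^ (-γ))) := by
        refine mul_le_mul (mul_le_mul_of_nonneg_left h3 (by positivity)) h2 (by positivity) ?_
        positivity
    _ = _ := by ring

end

/-- THE NUMBERS OF THE BLOCK LEMMA, for a given `KL` -/
theorem prn_of (h : Cs c₀ C₀ C κ₀ t₁ cL CL ω₀ r₀ N₀ e c₆ Kc γ) (KL : ℕ) (h1 : 1 ≤ KL)
    (hK : (1 / (1 + ω₀)) ^ KL ≤ 1 / 4) :
    Small fun s => ∀ (X : Type) [Fintype X] [DecidableEq X] (F : Fl X),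
      Pq F κ₀ t₁ cL CL ω₀ r₀ N₀ e c₆ Kc γ KL s → Out F c₀ C₀ C γ s := by
  refine ((sm h).and (sm2 h KL)).mono ?_
  rintro s hs ⟨hS, hS2⟩ X _ _ F hF
  have hs1 := hS.one
  have hk : 0 < F.κv := lt_of_lt_of_le (mul_pos h.k hs) hF.k0
  refine ⟨⟨?_, ?_⟩, ?_, ⟨?_, hz_le h hF hs hS2⟩, ⟨?_, hL_le h hF hs hS2⟩, ⟨?_, ?_⟩,
    pr_exp h hF hs hK hS hS2⟩
  · calc F.T * C₀ ≤ t₁ * F.κv * C₀ := mul_le_mul_of_nonneg_right hF.Tk h.C0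
      _ = (t₁ * C₀) * F.κv := by ring
      _ ≤ 1 * F.κv := mul_le_mul_of_nonneg_right h.tC hk.le
      _ = _ := one_mul _
  · calc 2 * F.r * F.T ≤ 2 * r₀ * (t₁ * F.κv) :=
          mul_le_mul (by have := hF.r1; linarith) hF.Tk hF.T0.le (by have := h.r; positivity)
      _ = (2 * r₀ * t₁) * F.κv := by ring
      _ ≤ 1 * F.κv := mul_le_mul_of_nonneg_right h.tr hk.le
      _ = _ := one_mul _
  · rw [hF.dl]
    refine le_trans (mul_le_mul_of_nonneg_right ?_ (by positivity)) hS2.d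
    have := hF.N1
    linarith
  · rw [hF.z]; positivity
  · rw [hF.l0]
    exact Real.one_le_rpow_of_pos_of_le_one_of_nonpos hs hs1 (by have := h.c6; linarith)
  · rw [hF.n]
    exact Nat.one_le_iff_ne_zero.2 (by
      have : 0 < s ^ (-γ) := by positivity
      exact (Nat.ceil_pos.2 this).ne')
  · rw [hF.nL]
    exact Nat.le_mul_of_pos_left _ (by omega)

/-- THE NUMBERS OF THE BLOCK LEMMA -/
theorem prn (h : Cs c₀ C₀ C κ₀ t₁ cL CL ω₀ r₀ N₀ e c₆ Kc γ) :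
    ∃ KL : ℕ, 1 ≤ KL ∧ Small fun s => ∀ (X : Type) [Fintype X] [DecidableEq X] (F : Fl X),
      Pq F κ₀ t₁ cL CL ω₀ r₀ N₀ e c₆ Kc γ KL s → Out F c₀ C₀ C γ s := by
  have hom := h.om
  have hlt : 1 / (1 + ω₀) < 1 := by rw [div_lt_one (by positivity)]; linarith
  obtain ⟨K, hK⟩ := exists_pow_lt_of_lt_one (show (0 : ℝ) < 1 / 4 by norm_num) hlt
  have hK1 : (1 / (1 + ω₀)) ^ (K + 1) ≤ 1 / 4 := by
    refine le_trans (pow_le_pow_of_le_one (by positivity) hlt.le (Nat.le_succ K)) hK.le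
  exact ⟨K + 1, Nat.le_add_left _ _, prn_of h (K + 1) (Nat.le_add_left _ _) hK1⟩

/-- an explicit choice of `KL` -/
theorem KL_le {ω₀ : ℝ} (h : 0 < ω₀) :
    1 ≤ ⌈3 / ω₀⌉₊ ∧ (1 / (1 + ω₀)) ^ ⌈3 / ω₀⌉₊ ≤ 1 / 4 := by
  have h0 : 0 < 3 / ω₀ := by positivity
  refine ⟨Nat.one_le_iff_ne_zero.2 (Nat.ceil_pos.2 h0).ne', ?_⟩
  set K : ℕ := ⌈3 / ω₀⌉₊ with hK
  have h1 : 3 / ω₀ ≤ K := Nat.le_ceil _
  have h2 : 3 ≤ K * ω₀ := by rwa [div_le_iff₀ h] at h1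
  have h3 : 1 + (K : ℝ) * ω₀ ≤ (1 + ω₀) ^ K := one_add_mul_le_pow (by linarith) K
  rw [one_div, inv_pow, one_div]
  exact inv_anti₀ (by norm_num) (by linarith)

/-- the bound of the probability in terms of the clock at the start of the super-stage -/
theorem exp_sg {s sg β γ : ℝ} (hs : 0 < s) (h1 : s ≤ sg) (h2 : sg ≤ 1) (hβ0 : 0 ≤ γ)
    (hβ : β ≤ γ / 2) : Real.exp (-(s ^ (-(γ / 2)))) ≤ Real.exp (-(sg ^ (-β))) := by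
  rw [Real.exp_le_exp, neg_le_neg_iff]
  have hsg : 0 < sg := hs.trans_le h1
  calc sg ^ (-β) ≤ sg ^ (-(γ / 2)) :=
        Real.rpow_le_rpow_of_exponent_ge hsg h2 (by linarith)
    _ ≤ s ^ (-(γ / 2)) := Real.rpow_le_rpow_of_nonpos hs h1 (by linarith)

end Pool.Agent.AFL.H17
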