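import Pool.Agent.Helper17_AFL.Rate

/-!
# AND2B, block lemma FLO: the choice of the numbers `n`, `nL`, `z`, `L0`

`Pq`: the relations between the data of the block lemma and the clock `s`. `prn`: for all small `s`
the numeric fields of `Fl.Ok` hold and the probability is at most `exp (-s ^ (-γ / 2))`.
-/

set_option autoImplicit false

open scoped BigOperators
open Filter Topology

noncomputable section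

namespace Pool.Agent.AFL.H17

open Pool.Agent.AFL Pool.Agent.AND.Num

/-- the relations between the data and the clock `s` -/
structure Pq {X : Type} [Fintype X] [DecidableEq X] (F : Fl X)
    (κ₀ t₁ cL CL ω₀ r₀ N₀ e c₆ Kc γ : ℝ) (KL : ℕ) (s : ℝ) : Prop where
  T0 : 0 < F.T
  Tk : F.T ≤ t₁ * F.κv
  k0 : κ₀ * s ≤ F.κv
  k1 : F.κv ≤ s
  r0 : 0 ≤ F.r
  r1 : F.r ≤ r₀
  N0 : 0 ≤ F.N
  N1 : F.N ≤ N₀
  dl : F.δ = s ^ (1 / 8 - e)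
  dy : F.δY = s ^ (1 / 16 - e)
  L0 : cL * s ^ (-(3 / 4 : ℝ)) ≤ F.L
  L1 : F.L ≤ CL * s ^ (-(3 / 4 : ℝ))
  om : ω₀ ≤ F.ω
  ep : 0 ≤ F.ε
  ep1 : F.ε ≤ s ^ c₆
  e1 : 0 < F.ε₁
  e11 : F.ε₁ ≤ s ^ c₆
  s1 : F.s1 ≤ s ^ c₆ * F.ε₁ ^ 2
  s8 : s ^ (1 / 8 : ℝ) ≤ s ^ c₆ * F.ε₁ ^ 2
  s3 : F.old * F.s3 ≤ s ^ c₆ * F.ε₁ ^ 2
  s2n : 0 ≤ F.s2
  s2 : F.s2 ≤ s ^ (1 / 4 + c₆)
  q1 : (F.Q1.card : ℝ) ≤ s ^ (-Kc)
  q : (F.Q.card : ℝ) ≤ s ^ (-Kc)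
  n : F.n = ⌈s ^ (-γ)⌉₊
  nL : F.nL = KL * F.n
  z : F.z = s ^ (-(63 / 64 : ℝ))
  l0 : F.L0 = s ^ (-(c₆ / 2))

/-- powers -/
theorem rp_mul {s : ℝ} (hs : 0 < s) (a b c : ℝ) (h : a + b = c) : s ^ a * s ^ b = s ^ c := by
  rw [← Real.rpow_add hs, h]

theorem rp_sq {s : ℝ} (hs : 0 < s) (a b : ℝ) (h : 2 * a = b) : (s ^ a) ^ 2 = s ^ b := by
  rw [sq, ← Real.rpow_add hs]; congr 1; linarith

theorem rp_four {s : ℝ} (hs : 0 < s) (a b : ℝ) (h : 4 * a = b) : (s ^ a) ^ 4 = s ^ b := by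
  rw [← Real.rpow_natCast, ← Real.rpow_mul hs.le]; congr 1; push_cast; linarith

theorem rp_sqrt {s : ℝ} (hs : 0 < s) (a b : ℝ) (h : a / 2 = b) : Real.sqrt (s ^ a) = s ^ b := by
  rw [Real.sqrt_eq_rpow, ← Real.rpow_mul hs.le]; congr 1; linarith

theorem rp_one {s : ℝ} (hs : 0 < s) (a b : ℝ) (h : 1 + a = b) : s * s ^ a = s ^ b := by
  nth_rewrite 1 [← Real.rpow_one s]
  exact rp_mul hs 1 a b h

theorem rp_inv {s : ℝ} (hs : 0 < s) : s⁻¹ = s ^ (-1 : ℝ) := by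
  rw [Real.rpow_neg_one]

section

variable {X : Type} [Fintype X] [DecidableEq X] {F : Fl X}
  {κ₀ t₁ cL CL ω₀ r₀ N₀ e c₆ Kc γ : ℝ} {KL : ℕ} {s : ℝ}

/-- the ratio `L / κv` -/
theorem Lk_le (h : Pq F κ₀ t₁ cL CL ω₀ r₀ N₀ e c₆ Kc γ KL s) (hs : 0 < s) (hκ : 0 < κ₀)
    (hC : 0 ≤ CL) : F.L / F.κv ≤ CL / κ₀ * s ^ (-(7 / 4 : ℝ)) := by
  have hk : 0 < F.κv := lt_of_lt_of_le (by positivity) h.k0
  rw [div_le_iff₀ hk]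
  have h1 : CL * s ^ (-(3 / 4 : ℝ)) = CL / κ₀ * s ^ (-(7 / 4 : ℝ)) * (κ₀ * s) := by
    have h2 : s ^ (-(3 / 4 : ℝ)) = s * s ^ (-(7 / 4 : ℝ)) := (rp_one hs _ _ (by norm_num)).symm
    rw [h2]
    field_simp
  refine h.L1.trans ?_
  rw [h1]
  exact mul_le_mul_of_nonneg_left h.k0 (by positivity)

/-- `T √(L / κv) ≤ C s ^ (1 / 8)` -/
theorem Tsq_le (h : Pq F κ₀ t₁ cL CL ω₀ r₀ N₀ e c₆ Kc γ KL s) (hs : 0 < s) (hκ : 0 < κ₀)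
    (hC : 0 ≤ CL) (ht : 0 ≤ t₁) :
    F.T * Real.sqrt (F.L / F.κv) ≤ t₁ * Real.sqrt (CL / κ₀) * s ^ (1 / 8 : ℝ) := by
  have h1 : Real.sqrt (F.L / F.κv) ≤ Real.sqrt (CL / κ₀) * s ^ (-(7 / 8 : ℝ)) := by
    rw [← rp_sqrt hs (-(7 / 4 : ℝ)) _ (by norm_num), ← Real.sqrt_mul (by positivity)]
    exact Real.sqrt_le_sqrt (Lk_le h hs hκ hC)
  have h2 : F.T ≤ t₁ * s := h.Tk.trans (mul_le_mul_of_nonneg_left h.k1 ht)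
  calc F.T * Real.sqrt (F.L / F.κv) ≤ t₁ * s * (Real.sqrt (CL / κ₀) * s ^ (-(7 / 8 : ℝ))) :=
        mul_le_mul h2 h1 (Real.sqrt_nonneg _) (by positivity)
    _ = t₁ * Real.sqrt (CL / κ₀) * (s * s ^ (-(7 / 8 : ℝ))) := by ring
    _ = _ := by rw [rp_one hs _ (1 / 8) (by norm_num)]

/-- `T (L / κv)^(1/4) / √κv ≤ C s ^ (1 / 16)` -/
theorem Tqq_le (h : Pq F κ₀ t₁ cL CL ω₀ r₀ N₀ e c₆ Kc γ KL s) (hs : 0 < s) (hκ : 0 < κ₀)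
    (hC : 0 ≤ CL) (ht : 0 ≤ t₁) :
    F.T * (Real.sqrt (Real.sqrt (F.L / F.κv)) / Real.sqrt F.κv) ≤
      t₁ * Real.sqrt (Real.sqrt (CL / κ₀)) / Real.sqrt κ₀ * s ^ (1 / 16 : ℝ) := by
  have hk : 0 < F.κv := lt_of_lt_of_le (by positivity) h.k0
  have h1 : Real.sqrt (Real.sqrt (F.L / F.κv)) ≤
      Real.sqrt (Real.sqrt (CL / κ₀)) * s ^ (-(7 / 16 : ℝ)) := by
    rw [← rp_sqrt hs (-(7 / 8 : ℝ)) _ (by norm_num), ← Real.sqrt_mul (by positivity),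
      ← rp_sqrt hs (-(7 / 4 : ℝ)) (-(7 / 8 : ℝ)) (by norm_num), ← Real.sqrt_mul (by positivity)]
    exact Real.sqrt_le_sqrt (Real.sqrt_le_sqrt (Lk_le h hs hκ hC))
  have h2 : F.T ≤ t₁ * s := h.Tk.trans (mul_le_mul_of_nonneg_left h.k1 ht)
  have h3 : Real.sqrt κ₀ * s ^ (1 / 2 : ℝ) ≤ Real.sqrt F.κv := by
    rw [← Real.sqrt_eq_rpow, ← Real.sqrt_mul hκ.le]
    exact Real.sqrt_le_sqrt h.k0
  have h4 : 0 < Real.sqrt κ₀ * s ^ (1 / 2 : ℝ) := by positivity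
  have h5 : Real.sqrt (Real.sqrt (F.L / F.κv)) / Real.sqrt F.κv ≤
      Real.sqrt (Real.sqrt (CL / κ₀)) * s ^ (-(7 / 16 : ℝ)) / (Real.sqrt κ₀ * s ^ (1 / 2 : ℝ)) :=
    div_le_div₀ (by positivity) h1 h4 h3
  calc F.T * (Real.sqrt (Real.sqrt (F.L / F.κv)) / Real.sqrt F.κv)
      ≤ t₁ * s * (Real.sqrt (Real.sqrt (CL / κ₀)) * s ^ (-(7 / 16 : ℝ)) /
          (Real.sqrt κ₀ * s ^ (1 / 2 : ℝ))) :=
        mul_le_mul h2 h5 (by positivity) (by positivity)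
    _ = t₁ * Real.sqrt (Real.sqrt (CL / κ₀)) / Real.sqrt κ₀ *
          (s * s ^ (-(7 / 16 : ℝ)) / s ^ (1 / 2 : ℝ)) := by
        field_simp
    _ = _ := by
        congr 1
        rw [rp_one hs _ (9 / 16) (by norm_num), ← Real.rpow_sub hs]
        norm_num

theorem sqrt_rL (h : Pq F κ₀ t₁ cL CL ω₀ r₀ N₀ e c₆ Kc γ KL s) (hs : 0 < s) (hκ : 0 < κ₀)
    (hC : 0 ≤ CL) (ht : 0 ≤ t₁) :
    F.T * Real.sqrt (F.r * F.L / F.κv) ≤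
      Real.sqrt r₀ * (t₁ * Real.sqrt (CL / κ₀) * s ^ (1 / 8 : ℝ)) := by
  have h1 : F.r * F.L / F.κv = F.r * (F.L / F.κv) := by ring
  rw [h1, Real.sqrt_mul h.r0]
  calc F.T * (Real.sqrt F.r * Real.sqrt (F.L / F.κv))
      = Real.sqrt F.r * (F.T * Real.sqrt (F.L / F.κv)) := by ring
    _ ≤ Real.sqrt r₀ * (t₁ * Real.sqrt (CL / κ₀) * s ^ (1 / 8 : ℝ)) := by
        refine mul_le_mul (Real.sqrt_le_sqrt h.r1) (Tsq_le h hs hκ hC ht) ?_ (Real.sqrt_nonneg _)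
        exact mul_nonneg h.T0.le (Real.sqrt_nonneg _)

/-- the noise of the form -/
theorem nu_le {c₀ : ℝ} (h : Pq F κ₀ t₁ cL CL ω₀ r₀ N₀ e c₆ Kc γ KL s) (hs : 0 < s) (hκ : 0 < κ₀)
    (hC : 0 ≤ CL) (ht : 0 ≤ t₁) (hc₀ : 0 < c₀) :
    F.T * F.nu c₀ ≤ (32 / c₀ * (Real.sqrt r₀ * (t₁ * Real.sqrt (CL / κ₀))) + 16 * r₀ * t₁ +
      16 * t₁) * s ^ c₆ * F.ε₁ ^ 2 := by
  have hk : 0 < F.κv := lt_of_lt_of_le (by positivity) h.k0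
  have h1 := sqrt_rL h hs hκ hC ht
  have hTk : F.T / F.κv ≤ t₁ := (div_le_iff₀ hk).2 h.Tk
  have hTk0 : 0 ≤ F.T / F.κv := div_nonneg h.T0.le hk.le
  have hr0 : 0 ≤ r₀ := h.r0.trans h.r1
  have hp : 0 ≤ s ^ c₆ * F.ε₁ ^ 2 := by positivity
  have e : F.T * F.nu c₀ = 32 / c₀ * (F.T * Real.sqrt (F.r * F.L / F.κv)) +
      16 * (F.r * (F.T / F.κv)) * F.s1 + 16 * (F.T / F.κv) * (F.old * F.s3) := by
    unfold Fl.nu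
    generalize Real.sqrt (F.r * F.L / F.κv) = y
    field_simp
    ring
  have h2 : 32 / c₀ * (F.T * Real.sqrt (F.r * F.L / F.κv)) ≤
      32 / c₀ * (Real.sqrt r₀ * (t₁ * Real.sqrt (CL / κ₀))) * (s ^ c₆ * F.ε₁ ^ 2) := by
    have h21 : F.T * Real.sqrt (F.r * F.L / F.κv) ≤
        Real.sqrt r₀ * (t₁ * Real.sqrt (CL / κ₀)) * (s ^ c₆ * F.ε₁ ^ 2) := by
      refine h1.trans ?_
      calc Real.sqrt r₀ * (t₁ * Real.sqrt (CL / κ₀) * s ^ (1 / 8 : ℝ))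
          = Real.sqrt r₀ * (t₁ * Real.sqrt (CL / κ₀)) * s ^ (1 / 8 : ℝ) := by ring
        _ ≤ _ := mul_le_mul_of_nonneg_left h.s8 (by positivity)
    calc _ ≤ 32 / c₀ * (Real.sqrt r₀ * (t₁ * Real.sqrt (CL / κ₀)) * (s ^ c₆ * F.ε₁ ^ 2)) :=
          mul_le_mul_of_nonneg_left h21 (by positivity)
      _ = _ := by ring
  have h3 : 16 * (F.r * (F.T / F.κv)) * F.s1 ≤ 16 * (r₀ * t₁) * (s ^ c₆ * F.ε₁ ^ 2) := by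
    have h31 : F.r * (F.T / F.κv) ≤ r₀ * t₁ := mul_le_mul h.r1 hTk hTk0 hr0
    have h32 : 0 ≤ F.r * (F.T / F.κv) := mul_nonneg h.r0 hTk0
    calc 16 * (F.r * (F.T / F.κv)) * F.s1 ≤ 16 * (F.r * (F.T / F.κv)) * (s ^ c₆ * F.ε₁ ^ 2) :=
          mul_le_mul_of_nonneg_left h.s1 (by linarith)
      _ ≤ _ := mul_le_mul_of_nonneg_right (by linarith) hp
  have h4 : 16 * (F.T / F.κv) * (F.old * F.s3) ≤ 16 * t₁ * (s ^ c₆ * F.ε₁ ^ 2) := by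
    calc 16 * (F.T / F.κv) * (F.old * F.s3) ≤ 16 * (F.T / F.κv) * (s ^ c₆ * F.ε₁ ^ 2) :=
          mul_le_mul_of_nonneg_left h.s3 (by linarith)
      _ ≤ _ := mul_le_mul_of_nonneg_right (by linarith) hp
  rw [e]
  calc _ ≤ 32 / c₀ * (Real.sqrt r₀ * (t₁ * Real.sqrt (CL / κ₀))) * (s ^ c₆ * F.ε₁ ^ 2) +
        16 * (r₀ * t₁) * (s ^ c₆ * F.ε₁ ^ 2) + 16 * t₁ * (s ^ c₆ * F.ε₁ ^ 2) :=
        add_le_add (add_le_add h2 h3) h4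
    _ = _ := by ring

/-- lower bound of `ε₁` -/
theorem e1_low (h : Pq F κ₀ t₁ cL CL ω₀ r₀ N₀ e c₆ Kc γ KL s) (hs : 0 < s) (hs1 : s ≤ 1)
    (hc₆ : 0 ≤ c₆) : s ^ (1 / 16 : ℝ) ≤ F.ε₁ := by
  have h1 : s ^ c₆ ≤ 1 := Real.rpow_le_one hs.le hs1 hc₆
  have h2 : (s ^ (1 / 16 : ℝ)) ^ 2 ≤ F.ε₁ ^ 2 := by
    rw [rp_sq hs (1 / 16) (1 / 8) (by norm_num)]
    calc s ^ (1 / 8 : ℝ) ≤ s ^ c₆ * F.ε₁ ^ 2 := h.s8
      _ ≤ 1 * F.ε₁ ^ 2 := mul_le_mul_of_nonneg_right h1 (by positivity)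
      _ = _ := one_mul _
  exact (pow_le_pow_iff_left₀ (by positivity) h.e1.le (by norm_num)).1 h2

end

end Pool.Agent.AFL.H17
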