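import Pool.Agent.AFL.Defs
import Pool.Agent.Helper61_AND.Num

/-!
# AND2B, block lemma FLO: the bound of `Fl.pr`

`Dim`: the dimensionless smallness conditions, with one small number `u` and `n u ≤ 1`, `nL = K n`.
`rt_le`: the total rate times the time is at most `a₀ n + B`; `pr_le`: the bound of the probability.
-/

set_option autoImplicit false

open scoped BigOperators

noncomputable section

namespace Pool.Agent.AFL.H17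

open Pool.Agent.AFL

variable {X : Type} [Fintype X] [DecidableEq X]

/-- dimensionless bounds; `u` small, `n u ≤ 1`, `T ≤ t₁ κv` -/
structure Dim (F : Fl X) (c₀ C u t₁ r₀ N₀ : ℝ) (K : ℕ) : Prop where
  u0 : 0 ≤ u
  T0 : 0 < F.T
  kv : 0 < F.κv
  Tk : F.T ≤ t₁ * F.κv
  r0 : 0 ≤ F.r
  r1 : F.r ≤ r₀
  N0 : 0 ≤ F.N
  N1 : F.N ≤ N₀
  dl : 0 < F.δ
  dl1 : F.δ ≤ u ^ 2
  ep : 0 ≤ F.ε
  ep1 : F.ε ≤ u ^ 2
  e1 : 0 < F.ε₁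
  e11 : F.ε₁ ≤ u ^ 2
  dy : 0 < F.δY
  q1 : F.T * F.L ≤ u ^ 2 * F.δ ^ 2
  q2 : 1 / Real.sqrt F.L0 ≤ u ^ 2
  q3 : F.κv * F.z ≤ u ^ 2
  q4 : F.T * F.yd C ≤ u * F.δY
  q5 : F.T * F.yn C ≤ u ^ 2 * F.δY ^ 2
  q6 : F.T * F.δ ≤ u * (F.κv * F.ε₁)
  q7 : F.T * F.nu c₀ ≤ u ^ 2 * F.ε₁ ^ 2
  nn : F.n * u ≤ 1
  nL : F.nL = K * F.n

/-- the rate per `n` -/
def a0 (t₁ r₀ N₀ : ℝ) : ℝ := 4 * (N₀ + 1) * r₀ * t₁ + 32 * r₀ * t₁

/-- the rest -/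
def Bc (C₀ t₁ r₀ N₀ : ℝ) (K : ℕ) : ℝ :=
  8 + 6 * K ^ 2 * t₁ * (3 + 16 * (N₀ + 1 + C₀ + 4 * r₀)) + 24 + 8 * (6 * N₀ + 8) + 8

variable {F : Fl X} {c₀ C₀ C u t₁ r₀ N₀ : ℝ} {K : ℕ}

theorem Dim.t1 (h : Dim F c₀ C u t₁ r₀ N₀ K) : 0 ≤ t₁ := by
  by_contra hn
  push Not at hn
  have h1 := h.Tk
  have h2 := h.T0
  have h3 := mul_neg_of_neg_of_pos hn h.kv
  linarith

theorem Dim.n2 (h : Dim F c₀ C u t₁ r₀ N₀ K) : (F.n : ℝ) ^ 2 * u ^ 2 ≤ 1 := by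
  have h1 : 0 ≤ (F.n : ℝ) * u := mul_nonneg (Nat.cast_nonneg _) h.u0
  have h2 := mul_le_mul h.nn h.nn h1 zero_le_one
  calc (F.n : ℝ) ^ 2 * u ^ 2 = (F.n * u) * (F.n * u) := by ring
    _ ≤ 1 * 1 := h2
    _ = 1 := one_mul _

theorem aG_le (h : Dim F c₀ C u t₁ r₀ N₀ K) :
    F.aG * F.T ≤ 4 * (N₀ + 1) * r₀ * t₁ * F.n + 8 := by
  have hk := h.kv
  have hd := h.dl
  have e : F.aG * F.T = 4 * F.n * ((F.N + 1) * F.r * (F.T / F.κv)) +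
      8 * F.n ^ 2 * (F.T * F.L / F.δ ^ 2) := by
    unfold Fl.aG Fl.μs
    field_simp
  have h1 : F.T / F.κv ≤ t₁ := (div_le_iff₀ hk).2 h.Tk
  have h2 : F.T * F.L / F.δ ^ 2 ≤ u ^ 2 := (div_le_iff₀ (by positivity)).2 h.q1
  have h3 : (F.N + 1) * F.r * (F.T / F.κv) ≤ (N₀ + 1) * r₀ * t₁ := by
    have := h.N0; have := h.N1; have := h.r0; have := h.r1; have := h.T0
    have hr : 0 ≤ r₀ := h.r0.trans h.r1
    exact mul_le_mul (mul_le_mul (by linarith) h.r1 h.r0 (by linarith)) h1 (by positivity)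
      (mul_nonneg (by linarith) hr)
  have hn : (0 : ℝ) ≤ F.n := Nat.cast_nonneg _
  have h4 : (F.n : ℝ) ^ 2 * (F.T * F.L / F.δ ^ 2) ≤ 1 :=
    (mul_le_mul_of_nonneg_left h2 (by positivity)).trans h.n2
  rw [e]
  have h5 := mul_le_mul_of_nonneg_left h3 (show (0 : ℝ) ≤ 4 * F.n by positivity)
  linarith

theorem aL_le (h : Dim F c₀ C u t₁ r₀ N₀ K) (hC₀ : 0 ≤ C₀) :
    F.aL C₀ * F.T ≤ 6 * K ^ 2 * t₁ * (3 + 16 * (N₀ + 1 + C₀ + 4 * r₀)) := by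
  have hk := h.kv
  have hu := h.u0
  have e : F.aL C₀ * F.T = 6 * (F.nL : ℝ) ^ 2 * (F.T / F.κv) * (1 / Real.sqrt F.L0 +
      (16 * ((F.N + 1) * F.δ + F.ε * C₀ + 4 * F.ε₁ * F.r) + 2 * (F.κv * F.z))) := by
    unfold Fl.aL Fl.aK
    generalize 1 / Real.sqrt F.L0 = y
    field_simp
  have h1 : F.T / F.κv ≤ t₁ := (div_le_iff₀ hk).2 h.Tk
  have h10 : 0 ≤ F.T / F.κv := div_nonneg h.T0.le hk.le
  have h2 : (F.N + 1) * F.δ ≤ (N₀ + 1) * u ^ 2 := by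
    have := h.N0; have := h.N1
    exact mul_le_mul (by linarith) h.dl1 h.dl.le (by linarith)
  have h3 : F.ε * C₀ ≤ C₀ * u ^ 2 := by
    rw [mul_comm C₀]
    exact mul_le_mul_of_nonneg_right h.ep1 hC₀
  have h4 : 4 * F.ε₁ * F.r ≤ 4 * r₀ * u ^ 2 := by
    have h41 := mul_le_mul h.e11 h.r1 h.r0 (by positivity : (0 : ℝ) ≤ u ^ 2)
    linarith
  have h5 : 1 / Real.sqrt F.L0 +
      (16 * ((F.N + 1) * F.δ + F.ε * C₀ + 4 * F.ε₁ * F.r) + 2 * (F.κv * F.z)) ≤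
      (3 + 16 * (N₀ + 1 + C₀ + 4 * r₀)) * u ^ 2 := by
    have := h.q2; have := h.q3
    linarith
  have hr : 0 ≤ r₀ := h.r0.trans h.r1
  have hN : 0 ≤ N₀ := h.N0.trans h.N1
  have ht := h.t1
  have hnL : (F.nL : ℝ) = K * F.n := by rw [h.nL]; push_cast; ring
  rw [e, hnL]
  calc 6 * (K * (F.n : ℝ)) ^ 2 * (F.T / F.κv) * (1 / Real.sqrt F.L0 +
      (16 * ((F.N + 1) * F.δ + F.ε * C₀ + 4 * F.ε₁ * F.r) + 2 * (F.κv * F.z)))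
      ≤ 6 * (K * (F.n : ℝ)) ^ 2 * (F.T / F.κv) * ((3 + 16 * (N₀ + 1 + C₀ + 4 * r₀)) * u ^ 2) :=
        mul_le_mul_of_nonneg_left h5 (by positivity)
    _ ≤ 6 * (K * (F.n : ℝ)) ^ 2 * t₁ * ((3 + 16 * (N₀ + 1 + C₀ + 4 * r₀)) * u ^ 2) := by
        refine mul_le_mul_of_nonneg_right (mul_le_mul_of_nonneg_left h1 (by positivity)) ?_
        positivity
    _ = 6 * K ^ 2 * t₁ * (3 + 16 * (N₀ + 1 + C₀ + 4 * r₀)) * ((F.n : ℝ) ^ 2 * u ^ 2) := by ring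
    _ ≤ 6 * K ^ 2 * t₁ * (3 + 16 * (N₀ + 1 + C₀ + 4 * r₀)) * 1 :=
        mul_le_mul_of_nonneg_left h.n2 (by positivity)
    _ = _ := mul_one _

theorem aY_le (h : Dim F c₀ C u t₁ r₀ N₀ K) : F.aY C * F.T ≤ 12 := by
  have hy := h.dy
  have e : F.aY C * F.T = 4 * F.n * (F.T * F.yd C / F.δY) +
      8 * F.n ^ 2 * (F.T * F.yn C / F.δY ^ 2) := by
    unfold Fl.aY
    ring
  have h1 : F.T * F.yd C / F.δY ≤ u := (div_le_iff₀ hy).2 h.q4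
  have h2 : F.T * F.yn C / F.δY ^ 2 ≤ u ^ 2 := (div_le_iff₀ (by positivity)).2 h.q5
  have hn : (0 : ℝ) ≤ F.n := Nat.cast_nonneg _
  have h3 : (F.n : ℝ) * (F.T * F.yd C / F.δY) ≤ 1 := (mul_le_mul_of_nonneg_left h1 hn).trans h.nn
  have h4 : (F.n : ℝ) ^ 2 * (F.T * F.yn C / F.δY ^ 2) ≤ 1 :=
    (mul_le_mul_of_nonneg_left h2 (by positivity)).trans h.n2
  rw [e]
  linarith

theorem aS_le (h : Dim F c₀ C u t₁ r₀ N₀ K) :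
    F.aS c₀ * F.T ≤ 32 * r₀ * t₁ * F.n + (8 * (6 * N₀ + 8) + 8) := by
  have hk := h.kv
  have he := h.e1
  have e : F.aS c₀ * F.T = 8 * (6 * F.N + 8) * (F.n * (F.T * F.δ / (F.κv * F.ε₁))) +
      8 * (F.n ^ 2 * (F.T * F.nu c₀ / F.ε₁ ^ 2)) + 32 * (F.r * (F.T / F.κv)) * F.n := by
    unfold Fl.aS Fl.μs
    generalize F.nu c₀ = y
    field_simp
    ring
  have h1 : F.T / F.κv ≤ t₁ := (div_le_iff₀ hk).2 h.Tk
  have h10 : 0 ≤ F.T / F.κv := div_nonneg h.T0.le hk.le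
  have h2 : F.T * F.δ / (F.κv * F.ε₁) ≤ u := (div_le_iff₀ (by positivity)).2 h.q6
  have h3 : F.T * F.nu c₀ / F.ε₁ ^ 2 ≤ u ^ 2 := (div_le_iff₀ (by positivity)).2 h.q7
  have hn : (0 : ℝ) ≤ F.n := Nat.cast_nonneg _
  have h4 : (F.n : ℝ) * (F.T * F.δ / (F.κv * F.ε₁)) ≤ 1 :=
    (mul_le_mul_of_nonneg_left h2 hn).trans h.nn
  have h5 : (F.n : ℝ) ^ 2 * (F.T * F.nu c₀ / F.ε₁ ^ 2) ≤ 1 :=
    (mul_le_mul_of_nonneg_left h3 (by positivity)).trans h.n2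
  have h6 : F.r * (F.T / F.κv) ≤ r₀ * t₁ := mul_le_mul h.r1 h1 h10 (h.r0.trans h.r1)
  have hN := h.N0
  have hN1 := h.N1
  have h7 : 8 * (6 * F.N + 8) * (F.n * (F.T * F.δ / (F.κv * F.ε₁))) ≤ 8 * (6 * N₀ + 8) * 1 := by
    have h71 : 0 ≤ (F.n : ℝ) * (F.T * F.δ / (F.κv * F.ε₁)) := by
      have := h.T0; have := h.dl
      positivity
    exact mul_le_mul (by linarith) h4 h71 (by linarith)
  have h8 : 32 * (F.r * (F.T / F.κv)) * F.n ≤ 32 * (r₀ * t₁) * F.n :=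
    mul_le_mul_of_nonneg_right (by linarith) hn
  rw [e]
  linarith

theorem rt_le (h : Dim F c₀ C u t₁ r₀ N₀ K) (hC₀ : 0 ≤ C₀) :
    F.rt c₀ C₀ C * F.T ≤ a0 t₁ r₀ N₀ * F.n + Bc C₀ t₁ r₀ N₀ K := by
  have h1 := aG_le h
  have h2 := aL_le h hC₀
  have h3 := aY_le h
  have h4 := aS_le h
  unfold Fl.rt a0 Bc
  linarith

/-- the bound of the probability -/
theorem pr_le {ω₀ P : ℝ} (h : Dim F c₀ C u t₁ r₀ N₀ K) (hC₀ : 0 ≤ C₀) (hω0 : 0 < ω₀)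
    (hω : ω₀ ≤ F.ω) (hK : (1 / (1 + ω₀)) ^ K ≤ 1 / 4) (ha : Real.exp (3 * a0 t₁ r₀ N₀) ≤ 2)
    (hP : 1 ≤ P) (hQ1 : (F.Q1.card : ℝ) ≤ P) (hQ : (F.Q.card : ℝ) ≤ P) :
    F.pr c₀ C₀ C ≤ 3 * Real.exp (3 * Bc C₀ t₁ r₀ N₀ K) *
      (P + (a0 t₁ r₀ N₀ * F.n + Bc C₀ t₁ r₀ N₀ K) * (5 * P ^ 2)) * (1 / 2) ^ F.n := by
  have h1 := rt_le h hC₀
  have hr : 0 ≤ r₀ := h.r0.trans h.r1
  have hN : 0 ≤ N₀ := h.N0.trans h.N1
  have ht := h.t1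
  have ha0 : 0 ≤ a0 t₁ r₀ N₀ := by unfold a0; positivity
  have hB : 0 ≤ Bc C₀ t₁ r₀ N₀ K := by unfold Bc; positivity
  set a : ℝ := a0 t₁ r₀ N₀ with haa
  set B : ℝ := Bc C₀ t₁ r₀ N₀ K with hBB
  have hn : (0 : ℝ) ≤ F.n := Nat.cast_nonneg _
  have h2 : (1 / (1 + F.ω)) ^ F.nL ≤ (1 / 4) ^ F.n := by
    have hω1 : 0 < 1 + F.ω := by linarith
    rw [h.nL, pow_mul]
    refine pow_le_pow_left₀ (by positivity) (le_trans ?_ hK) _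
    refine pow_le_pow_left₀ (by positivity) ?_ _
    exact one_div_le_one_div_of_le (by linarith) (by linarith)
  have h3 : F.cd ≤ 5 * P ^ 2 := by
    unfold Fl.cd
    have h31 : (F.Q1.card : ℝ) ^ 2 ≤ P ^ 2 := pow_le_pow_left₀ (Nat.cast_nonneg _) hQ1 2
    have h32 : P ≤ P ^ 2 := by nlinarith
    linarith
  have h30 : 0 ≤ F.cd := by unfold Fl.cd; positivity
  have h4 : Real.exp (3 * (F.rt c₀ C₀ C * F.T)) ≤ Real.exp (3 * B) * 2 ^ F.n := by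
    calc Real.exp (3 * (F.rt c₀ C₀ C * F.T)) ≤ Real.exp (3 * B + F.n * (3 * a)) := by
          rw [Real.exp_le_exp]; linarith
      _ = Real.exp (3 * B) * Real.exp (3 * a) ^ F.n := by
          rw [Real.exp_add, Real.exp_nat_mul]
      _ ≤ Real.exp (3 * B) * 2 ^ F.n := by
          refine mul_le_mul_of_nonneg_left ?_ (Real.exp_pos _).le
          exact pow_le_pow_left₀ (Real.exp_pos _).le ha _
  have hq : (0 : ℝ) ≤ (1 / 4) ^ F.n := by positivity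
  have h5 : F.Q1.card * (1 / (1 + F.ω)) ^ F.nL + F.rt c₀ C₀ C * F.T * (F.cd * (1 / 4) ^ F.n) ≤
      (P + (a * F.n + B) * (5 * P ^ 2)) * (1 / 4) ^ F.n := by
    have h51 : (F.Q1.card : ℝ) * (1 / (1 + F.ω)) ^ F.nL ≤ P * (1 / 4) ^ F.n := by
      refine mul_le_mul hQ1 h2 ?_ (by linarith)
      have : 0 < F.ω := hω0.trans_le hω
      positivity
    have h52 : F.rt c₀ C₀ C * F.T * (F.cd * (1 / 4) ^ F.n) ≤
        (a * F.n + B) * (5 * P ^ 2 * (1 / 4) ^ F.n) := by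
      refine mul_le_mul h1 (mul_le_mul_of_nonneg_right h3 hq) (mul_nonneg h30 hq) ?_
      positivity
    calc _ ≤ P * (1 / 4) ^ F.n + (a * F.n + B) * (5 * P ^ 2 * (1 / 4) ^ F.n) :=
          add_le_add h51 h52
      _ = _ := by ring
  have h6 : (2 : ℝ) ^ F.n * (1 / 4) ^ F.n = (1 / 2) ^ F.n := by
    rw [← mul_pow]; norm_num
  unfold Fl.pr
  calc 3 * Real.exp (3 * (F.rt c₀ C₀ C * F.T)) *
      (F.Q1.card * (1 / (1 + F.ω)) ^ F.nL + F.rt c₀ C₀ C * F.T * (F.cd * (1 / 4) ^ F.n))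
      ≤ 3 * Real.exp (3 * (F.rt c₀ C₀ C * F.T)) *
        ((P + (a * F.n + B) * (5 * P ^ 2)) * (1 / 4) ^ F.n) :=
        mul_le_mul_of_nonneg_left h5 (by positivity)
    _ ≤ 3 * (Real.exp (3 * B) * 2 ^ F.n) *
        ((P + (a * F.n + B) * (5 * P ^ 2)) * (1 / 4) ^ F.n) := by
        refine mul_le_mul_of_nonneg_right (by linarith) ?_
        positivity
    _ = 3 * Real.exp (3 * B) * (P + (a * F.n + B) * (5 * P ^ 2)) *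
        ((2 : ℝ) ^ F.n * (1 / 4) ^ F.n) := by ring
    _ = _ := by rw [h6]

end Pool.Agent.AFL.H17
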